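import Pool.Agent.Zk27.MB.Cut3
import Pool.Agent.Zk27.MB.O2

/-! The operator built on two families of blocks whose number of vanishing moments grows with the
scale, with general weights, is symmetric and has the modulus of continuity given by the weights on
every `C^k` (module O2'') -/

set_option autoImplicit false

open MeasureTheory Set Filter
open scoped ContDiff

namespace Pool.Agent.Zk27.MB

open Pool.Agent.H708R2.EulerSign

namespace O2c

open O2 (intOn cont_dot ip_comm ip_self ip_add ip_smul ip_self_nonneg abs_ip_le half_pow_le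
  summ_pow abs_dot_le trL trL_apply pow_rpow)

/-- the properties of the blocks used for one number `k` of derivatives; `m n` is the growth -/
structure Bl (n₀ : ℕ) (m : ℕ → ℝ) (k : ℕ) (C : ℝ) (F : ℕ → V → V) : Prop where
  smooth : ∀ n, ContDiff ℝ ∞ (F n)
  per : ∀ n, Periodic3 (F n)
  div : ∀ n x, divergence (F n) x = 0
  bound : ∀ n, ∀ j ≤ k + 1, ∀ x,
    ‖iteratedFDeriv ℝ j (F n) x‖ ≤ C * m n * 2 ^ ((n₀ + n) * j)
  l2 : ∀ n, ∫ x in Dom, sq3 (F n x) ≤ (C * m n) ^ 2 * (1 / 4) ^ (n₀ + n)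
  mom : ∀ n, ∀ (u : V → V) (B : ℝ), ContDiff ℝ k u → Periodic3 u →
    (∀ j ≤ k, ∀ x, ‖iteratedFDeriv ℝ j u x‖ ≤ B) →
    |ip u (F n)| ≤ C * B * m n * ((1 / 4) ^ (n₀ + n) * (1 / 2) ^ ((n₀ + n) * k))

/-- the two families with the weights -/
structure Dat (n₀ : ℕ) (m b κ : ℕ → ℝ) (k : ℕ) (C : ℝ) (F G : ℕ → V → V) : Prop where
  F : Bl n₀ m k C F
  G : Bl n₀ m k C G
  C0 : 0 < C
  m0 : ∀ n, 0 ≤ m n
  κ0 : ∀ n, 0 ≤ κ n
  κs : Summable κ
  w : ∀ n, |b n| * (m n ^ 2 * (1 / 4) ^ (n₀ + n)) ≤ κ n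

/-- the terms of the operator -/
noncomputable def tm (b : ℕ → ℝ) (F G : ℕ → V → V) (u : V → V) (n : ℕ) (x : V) : V :=
  b n • (ip u (F n) • G n x + ip u (G n) • F n x)

section

variable {n₀ k : ℕ} {m b κ : ℕ → ℝ} {C B : ℝ} {F G : ℕ → V → V} {u w : V → V}

lemma opr_eq (u : V → V) (x : V) : opr b F G u x = ∑' n, tm b F G u n x := rfl

lemma Dat.symm (h : Dat n₀ m b κ k C F G) : Dat n₀ m b κ k C G F :=
  ⟨h.G, h.F, h.C0, h.m0, h.κ0, h.κs, h.w⟩

lemma B_nonneg (hB : ∀ j ≤ k, ∀ x, ‖iteratedFDeriv ℝ j u x‖ ≤ B) : 0 ≤ B :=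
  (norm_nonneg _).trans (hB 0 (Nat.zero_le k) 0)

lemma coef_le (h : Dat n₀ m b κ k C F G) (hu : ContDiff ℝ k u) (hp : Periodic3 u)
    (hB : ∀ j ≤ k, ∀ x, ‖iteratedFDeriv ℝ j u x‖ ≤ B) (n : ℕ) :
    |b n| * |ip u (F n)| * (C * m n) ≤
      C ^ 2 * B * κ n * (1 / 2) ^ ((n₀ + n) * k) := by
  have hB0 := B_nonneg hB
  have h1 := h.F.mom n u B hu hp hB
  have h2 := h.w n
  have h3 := h.m0 n
  have h4 := h.C0.le
  have h5 : 0 ≤ |b n| := abs_nonneg _
  calc |b n| * |ip u (F n)| * (C * m n)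
      ≤ |b n| * (C * B * m n * ((1 / 4) ^ (n₀ + n) * (1 / 2) ^ ((n₀ + n) * k))) * (C * m n) := by
        gcongr
    _ = C ^ 2 * B * (1 / 2) ^ ((n₀ + n) * k) * (|b n| * (m n ^ 2 * (1 / 4) ^ (n₀ + n))) := by ring
    _ ≤ C ^ 2 * B * (1 / 2) ^ ((n₀ + n) * k) * κ n := by gcongr
    _ = _ := by ring

lemma itd_tm (h : Dat n₀ m b κ k C F G) (j : ℕ) (u : V → V) (n : ℕ) (x : V) :
    iteratedFDeriv ℝ j (tm b F G u n) x = b n •
      (ip u (F n) • iteratedFDeriv ℝ j (G n) x + ip u (G n) • iteratedFDeriv ℝ j (F n) x) := by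
  have hf : ContDiffAt ℝ j (F n) x := ((h.F.smooth n).of_le (by exact_mod_cast le_top)).contDiffAt
  have hg : ContDiffAt ℝ j (G n) x := ((h.G.smooth n).of_le (by exact_mod_cast le_top)).contDiffAt
  have e : tm b F G u n = b n • ((ip u (F n) • G n) + (ip u (G n) • F n)) := rfl
  have hg' : ContDiffAt ℝ j (ip u (F n) • G n) x := hg.const_smul (ip u (F n))
  have hf' : ContDiffAt ℝ j (ip u (G n) • F n) x := hf.const_smul (ip u (G n))
  have hs : ContDiffAt ℝ j (ip u (F n) • G n + ip u (G n) • F n) x := hg'.add hf'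
  rw [e, iteratedFDeriv_const_smul_apply hs, iteratedFDeriv_add_apply hg' hf',
    iteratedFDeriv_const_smul_apply hg, iteratedFDeriv_const_smul_apply hf]

lemma tm_smooth (h : Dat n₀ m b κ k C F G) (u : V → V) (n : ℕ) :
    ContDiff ℝ ∞ (tm b F G u n) := by
  have e : tm b F G u n = b n • ((ip u (F n) • G n) + (ip u (G n) • F n)) := rfl
  rw [e]
  have hg' : ContDiff ℝ ∞ (ip u (F n) • G n) := (h.G.smooth n).const_smul (ip u (F n))
  have hf' : ContDiff ℝ ∞ (ip u (G n) • F n) := (h.F.smooth n).const_smul (ip u (G n))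
  exact (hg'.add hf').const_smul (b n)

/-- a bound for a combination of two terms -/
lemma comb_le (h : Dat n₀ m b κ k C F G) (hu : ContDiff ℝ k u) (hp : Periodic3 u)
    (hB : ∀ j ≤ k, ∀ x, ‖iteratedFDeriv ℝ j u x‖ ≤ B) (n : ℕ) {E : Type*}
    [NormedAddCommGroup E] [NormedSpace ℝ E] (y z : E) (s : ℝ) (hs : 0 ≤ s)
    (hy : ‖y‖ ≤ C * m n * s) (hz : ‖z‖ ≤ C * m n * s) :
    ‖b n • (ip u (F n) • y + ip u (G n) • z)‖ ≤
      2 * C ^ 2 * B * κ n * ((1 / 2) ^ ((n₀ + n) * k) * s) := by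
  have h1 := coef_le h hu hp hB n
  have h2 := coef_le h.symm hu hp hB n
  have h5 : 0 ≤ |b n| := abs_nonneg _
  rw [norm_smul, Real.norm_eq_abs]
  have h6 : ‖ip u (F n) • y + ip u (G n) • z‖ ≤
      |ip u (F n)| * (C * m n * s) + |ip u (G n)| * (C * m n * s) := by
    refine (norm_add_le _ _).trans (add_le_add ?_ ?_)
    · rw [norm_smul, Real.norm_eq_abs]
      exact mul_le_mul_of_nonneg_left hy (abs_nonneg _)
    · rw [norm_smul, Real.norm_eq_abs]
      exact mul_le_mul_of_nonneg_left hz (abs_nonneg _)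
  calc |b n| * ‖ip u (F n) • y + ip u (G n) • z‖
      ≤ |b n| * (|ip u (F n)| * (C * m n * s) + |ip u (G n)| * (C * m n * s)) :=
        mul_le_mul_of_nonneg_left h6 h5
    _ = (|b n| * |ip u (F n)| * (C * m n)) * s + (|b n| * |ip u (G n)| * (C * m n)) * s := by ring
    _ ≤ (C ^ 2 * B * κ n * (1 / 2) ^ ((n₀ + n) * k)) * s +
        (C ^ 2 * B * κ n * (1 / 2) ^ ((n₀ + n) * k)) * s :=
        add_le_add (mul_le_mul_of_nonneg_right h1 hs) (mul_le_mul_of_nonneg_right h2 hs)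
    _ = _ := by ring

lemma itd_tm_le (h : Dat n₀ m b κ k C F G) {j : ℕ} (hj : j ≤ k) (hu : ContDiff ℝ k u)
    (hp : Periodic3 u) (hB : ∀ j ≤ k, ∀ x, ‖iteratedFDeriv ℝ j u x‖ ≤ B) (n : ℕ) (x : V) :
    ‖iteratedFDeriv ℝ j (tm b F G u n) x‖ ≤ 2 * C ^ 2 * B * κ n := by
  have hB0 := B_nonneg hB
  have hκ := h.κ0 n
  rw [itd_tm h]
  refine (comb_le h hu hp hB n _ _ (2 ^ ((n₀ + n) * j)) (by positivity)
    (h.G.bound n j (by omega) x) (h.F.bound n j (by omega) x)).trans ?_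
  have h0 : 0 ≤ 2 * C ^ 2 * B * κ n := by positivity
  exact (mul_le_mul_of_nonneg_left (half_pow_le hj) h0).trans_eq (mul_one _)

lemma Dat.summ (h : Dat n₀ m b κ k C F G) (a : ℝ) :
    Summable fun n : ℕ => a * κ n := h.κs.mul_left a

/-- the operator on functions of class `C^k` -/
lemma contDiff_opr (h : Dat n₀ m b κ k C F G) (hu : ContDiff ℝ k u) (hp : Periodic3 u)
    (hB : ∀ j ≤ k, ∀ x, ‖iteratedFDeriv ℝ j u x‖ ≤ B) :
    ContDiff ℝ k (opr b F G u) ∧
    ∀ j ≤ k, iteratedFDeriv ℝ j (opr b F G u) =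
      fun x => ∑' n, iteratedFDeriv ℝ j (tm b F G u n) x := by
  have hs : ∀ i, ContDiff ℝ ((k : ℕ∞) : WithTop ℕ∞) (tm b F G u i) := fun i =>
    (tm_smooth h u i).of_le (by exact_mod_cast le_top)
  have hv : ∀ j : ℕ, (j : ℕ∞) ≤ (k : ℕ∞) → Summable
      ((fun _ n => 2 * C ^ 2 * B * κ n : ℕ → ℕ → ℝ) j) := fun j _ => h.summ _
  constructor
  · have h := contDiff_tsum (𝕜 := ℝ) (N := (k : ℕ∞)) hs hv (fun j i x hj =>
      itd_tm_le h (by exact_mod_cast hj) hu hp hB i x)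
    exact h
  · intro j hj
    exact iteratedFDeriv_tsum (𝕜 := ℝ) (N := (k : ℕ∞)) hs hv (fun j i x hj =>
      itd_tm_le h (by exact_mod_cast hj) hu hp hB i x) (by exact_mod_cast hj)

lemma zero_bd (hB : ∀ x, ‖u x‖ ≤ B) : ∀ j ≤ 0, ∀ x, ‖iteratedFDeriv ℝ j u x‖ ≤ B := by
  intro j hj x
  obtain rfl : j = 0 := by omega
  rw [norm_iteratedFDeriv_zero]
  exact hB x

/-- the case `k = 0` -/
lemma tm_le (h : Dat n₀ m b κ 0 C F G) (hu : Continuous u) (hp : Periodic3 u)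
    (hB : ∀ x, ‖u x‖ ≤ B) (n : ℕ) (x : V) :
    ‖tm b F G u n x‖ ≤ 2 * C ^ 2 * B * κ n := by
  have h := itd_tm_le (j := 0) h le_rfl (by simpa using hu) hp (zero_bd hB) n x
  rwa [norm_iteratedFDeriv_zero] at h

lemma tm_summable (h : Dat n₀ m b κ 0 C F G) (hu : Continuous u) (hp : Periodic3 u) (x : V) :
    Summable fun n => tm b F G u n x := by
  obtain ⟨B, -, hB⟩ := hp.bounded hu
  exact Summable.of_norm_bounded (h.summ _) (fun n => tm_le h hu hp hB n x)

lemma opr_cont (h : Dat n₀ m b κ 0 C F G) (hu : Continuous u) (hp : Periodic3 u) :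
    Continuous (opr b F G u) := by
  obtain ⟨B, -, hB⟩ := hp.bounded hu
  have h := (contDiff_opr (k := 0) h (by simpa using hu) hp (zero_bd hB)).1
  exact h.continuous

lemma opr_per (h : Dat n₀ m b κ k C F G) (u : V → V) : Periodic3 (opr b F G u) := by
  intro i x
  unfold opr
  simp only [h.F.per _ i x, h.G.per _ i x]

lemma opr_add (h : Dat n₀ m b κ 0 C F G) (hu : Continuous u) (hp : Periodic3 u)
    (hw : Continuous w) (hpw : Periodic3 w) :
    opr b F G (fun x => u x + w x) = fun x => opr b F G u x + opr b F G w x := by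
  funext x
  rw [opr_eq, opr_eq, opr_eq, ← (tm_summable h hu hp x).tsum_add (tm_summable h hw hpw x)]
  refine tsum_congr fun n => ?_
  unfold tm
  rw [ip_add hu hw (h.F.smooth n).continuous, ip_add hu hw (h.G.smooth n).continuous]
  rw [← smul_add]
  congr 1
  rw [add_smul, add_smul]
  abel

/-- the bilinear form of the operator -/
lemma ip_opr (h : Dat n₀ m b κ 0 C F G) (hu : Continuous u) (hp : Periodic3 u)
    (hw : Continuous w) (hpw : Periodic3 w) :
    ip (opr b F G u) w = ∑' n, b n * (ip u (F n) * ip w (G n) + ip u (G n) * ip w (F n)) := by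
  obtain ⟨B, hB0, hB⟩ := hp.bounded hu
  obtain ⟨W, hW0, hW⟩ := hpw.bounded hw
  have hc : ∀ n, Continuous fun x => ∑ i, tm b F G u n x i * w x i := fun n =>
    cont_dot (tm_smooth h u n).continuous hw
  have hle : ∀ n x, ‖∑ i, tm b F G u n x i * w x i‖ ≤
      3 * (2 * C ^ 2 * B * κ n * W) := fun n x => by
    rw [Real.norm_eq_abs]
    refine (abs_dot_le _ _).trans ?_
    have h1 := tm_le h hu hp hB n x
    have h2 := mul_le_mul h1 (hW x) (norm_nonneg _) ((norm_nonneg _).trans h1)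
    linarith
  have e1 : ∀ n, ∫ x in Dom, ∑ i, tm b F G u n x i * w x i =
      b n * (ip u (F n) * ip w (G n) + ip u (G n) * ip w (F n)) := by
    intro n
    have h1 : ip (tm b F G u n) w =
        b n * (ip u (F n) * ip w (G n) + ip u (G n) * ip w (F n)) := by
      unfold tm
      rw [ip_smul, ip_add (by have := (h.G.smooth n).continuous; fun_prop)
        (by have := (h.F.smooth n).continuous; fun_prop) hw, ip_smul, ip_smul,
        ip_comm (G n) w, ip_comm (F n) w]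
    exact h1
  simp only [← e1]
  rw [integral_tsum_of_summable_integral_norm (fun n => intOn (hc n))]
  · unfold ip
    refine integral_congr_ae (Eventually.of_forall fun x => ?_)
    have hs := tm_summable h hu hp x
    have hi : ∀ i, (∑' n, tm b F G u n x) i = ∑' n, tm b F G u n x i := fun i =>
      tsum_apply hs
    have hsi : ∀ i, Summable fun n => tm b F G u n x i := fun i => (Pi.summable.1 hs) i
    simp only [opr_eq, hi]
    rw [Summable.tsum_finsetSum (fun i _ => (hsi i).mul_right _)]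
    refine Finset.sum_congr rfl fun i _ => ?_
    rw [tsum_mul_right]
  · refine Summable.of_nonneg_of_le (fun n => integral_nonneg fun x => norm_nonneg _)
      (fun n => ?_) (h.summ ((volume Dom).toReal * (3 * (2 * C ^ 2 * B * W))))
    have h1 : ∫ x in Dom, ‖∑ i, tm b F G u n x i * w x i‖ ≤
        ∫ _ in Dom, 3 * (2 * C ^ 2 * B * κ n * W) := by
      refine integral_mono (intOn (hc n).norm) (intOn continuous_const) (fun x => hle n x)
    refine h1.trans_eq ?_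
    rw [setIntegral_const, smul_eq_mul, measureReal_def]
    ring

/-- the bound on `L²` -/
lemma opr_l2 (h : Dat n₀ m b κ 0 C F G) (hu : Continuous u) (hp : Periodic3 u) :
    ∫ x in Dom, sq3 (opr b F G u x) ≤
      (∑' n, 2 * C ^ 2 * κ n) ^ 2 * ∫ x in Dom, sq3 (u x) := by
  have hκ := h.κ0
  have hC := h.C0
  set T := opr b F G u with hT
  have hTc : Continuous T := opr_cont h hu hp
  have hTp : Periodic3 T := opr_per h u
  rw [← ip_self, ← ip_self]
  set E := ip u u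
  set W := ip T T with hW
  have hE : 0 ≤ E := ip_self_nonneg u
  have hW0 : 0 ≤ W := ip_self_nonneg T
  have hfl : ∀ {H : ℕ → V → V}, Bl n₀ m 0 C H → ∀ n, Real.sqrt (ip (H n) (H n)) ≤
      C * m n * (1 / 2) ^ (n₀ + n) := fun {H} hH n => by
    have hm := h.m0 n
    rw [ip_self]
    refine Real.sqrt_le_iff.2 ⟨by positivity, (hH.l2 n).trans_eq ?_⟩
    rw [mul_pow (C * m n), ← pow_mul, mul_comm (n₀ + n) 2, pow_mul]
    norm_num
  have hterm : ∀ {H : ℕ → V → V}, Bl n₀ m 0 C H → ∀ {v : V → V}, Continuous v → ∀ n,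
      |ip v (H n)| ≤ Real.sqrt (ip v v) * (C * m n * (1 / 2) ^ (n₀ + n)) := fun {H} hH {v} hv n =>
    (abs_ip_le hv (hH.smooth n).continuous).trans
      (mul_le_mul_of_nonneg_left (hfl hH n) (Real.sqrt_nonneg _))
  have hsum : W ≤ Real.sqrt E * Real.sqrt W * ∑' n, 2 * C ^ 2 * κ n := by
    have h1 : W = ∑' n, b n * (ip u (F n) * ip T (G n) + ip u (G n) * ip T (F n)) :=
      ip_opr h hu hp hTc hTp
    rw [h1, ← tsum_mul_left]
    have hs : Summable fun n => Real.sqrt E * Real.sqrt W *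
        (2 * C ^ 2 * κ n) := (h.summ _).mul_left _
    rw [← h1]
    have hb : ∀ n, ‖b n * (ip u (F n) * ip T (G n) + ip u (G n) * ip T (F n))‖ ≤
        Real.sqrt E * Real.sqrt W * (2 * C ^ 2 * κ n) := fun n => by
      have hm := h.m0 n
      rw [norm_mul, Real.norm_eq_abs, Real.norm_eq_abs]
      have h2 : |ip u (F n) * ip T (G n) + ip u (G n) * ip T (F n)| ≤
          2 * ((Real.sqrt E * (C * m n * (1 / 2) ^ (n₀ + n))) *
            (Real.sqrt W * (C * m n * (1 / 2) ^ (n₀ + n)))) := by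
        refine (abs_add_le _ _).trans ?_
        rw [abs_mul, abs_mul]
        have h3 := mul_le_mul (hterm h.F hu n) (hterm h.G hTc n) (abs_nonneg _) (by positivity)
        have h4 := mul_le_mul (hterm h.G hu n) (hterm h.F hTc n) (abs_nonneg _) (by positivity)
        linarith
      refine (mul_le_mul_of_nonneg_left h2 (abs_nonneg _)).trans ?_
      have h5 : (1 / 2 : ℝ) ^ (n₀ + n) * (1 / 2) ^ (n₀ + n) = (1 / 4) ^ (n₀ + n) := by
        rw [← mul_pow]; norm_num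
      calc |b n| * (2 * ((Real.sqrt E * (C * m n * (1 / 2) ^ (n₀ + n))) *
            (Real.sqrt W * (C * m n * (1 / 2) ^ (n₀ + n)))))
          = Real.sqrt E * Real.sqrt W * (2 * C ^ 2) *
            (|b n| * (m n ^ 2 * ((1 / 2 : ℝ) ^ (n₀ + n) * (1 / 2) ^ (n₀ + n)))) := by ring
        _ ≤ Real.sqrt E * Real.sqrt W * (2 * C ^ 2) * κ n := by
          rw [h5]
          exact mul_le_mul_of_nonneg_left (h.w n) (by positivity)
        _ = _ := by ring
    calc W = _ := h1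
      _ ≤ ‖∑' n, b n * (ip u (F n) * ip T (G n) + ip u (G n) * ip T (F n))‖ :=
        Real.le_norm_self _
      _ ≤ _ := tsum_of_norm_bounded hs.hasSum hb
  set K := ∑' n, 2 * C ^ 2 * κ n with hK
  have hK0 : 0 ≤ K := tsum_nonneg fun n => mul_nonneg (by positivity) (hκ n)
  have h6 : Real.sqrt W ≤ K * Real.sqrt E := by
    rcases (Real.sqrt_nonneg W).eq_or_lt with h | h
    · rw [← h]; positivity
    · have h7 : Real.sqrt W * Real.sqrt W = W := Real.mul_self_sqrt hW0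
      have h8 : Real.sqrt W * Real.sqrt W ≤ Real.sqrt W * (K * Real.sqrt E) := by
        rw [h7]; linarith
      exact le_of_mul_le_mul_left h8 h
  calc W = Real.sqrt W ^ 2 := (Real.sq_sqrt hW0).symm
    _ ≤ (K * Real.sqrt E) ^ 2 := pow_le_pow_left₀ (Real.sqrt_nonneg _) h6 2
    _ = K ^ 2 * E := by rw [mul_pow, Real.sq_sqrt hE]

lemma div_tm (h : Dat n₀ m b κ k C F G) (u : V → V) (n : ℕ) (x : V) :
    divergence (tm b F G u n) x = 0 := by
  have hf : HasFDerivAt (F n) (fderiv ℝ (F n) x) x :=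
    ((h.F.smooth n).differentiable (by simp)).differentiableAt.hasFDerivAt
  have hg : HasFDerivAt (G n) (fderiv ℝ (G n) x) x :=
    ((h.G.smooth n).differentiable (by simp)).differentiableAt.hasFDerivAt
  have h' : HasFDerivAt (tm b F G u n) (b n •
      (ip u (F n) • fderiv ℝ (G n) x + ip u (G n) • fderiv ℝ (F n) x)) x :=
    ((hg.const_smul (ip u (F n))).add (hf.const_smul (ip u (G n)))).const_smul (b n)
  have h1 := h.F.div n x
  have h2 := h.G.div n x
  rw [divergence_eq_sum] at h1 h2 ⊢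
  rw [h'.fderiv, ← trL_apply, map_smul, map_add, map_smul, map_smul, trL_apply, trL_apply, h1, h2]
  simp

lemma opr_div (h₀ : Dat n₀ m b κ 0 C F G) {C₁ : ℝ} (h : Dat n₀ m b κ 1 C₁ F G)
    (hu : ContDiff ℝ 1 u) (hp : Periodic3 u) (x : V) :
    divergence (opr b F G u) x = 0 := by
  obtain ⟨B₁, -, hB₁⟩ := hp.fderiv.bounded (hu.continuous_fderiv one_ne_zero)
  obtain ⟨B₀, -, hB₀⟩ := hp.bounded hu.continuous
  have hB' : ∀ j ≤ 1, ∀ x, ‖iteratedFDeriv ℝ j u x‖ ≤ max B₀ B₁ := by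
    intro j hj x
    rcases Nat.le_one_iff_eq_zero_or_eq_one.1 hj with rfl | rfl
    · rw [norm_iteratedFDeriv_zero]; exact (hB₀ x).trans (le_max_left _ _)
    · rw [norm_iteratedFDeriv_one]; exact (hB₁ x).trans (le_max_right _ _)
  have hd : ∀ n x, HasFDerivAt (tm b F G u n) (fderiv ℝ (tm b F G u n) x) x :=
    fun n x => ((tm_smooth h u n).differentiable (by simp)).differentiableAt.hasFDerivAt
  have hle : ∀ n x, ‖fderiv ℝ (tm b F G u n) x‖ ≤
      2 * C₁ ^ 2 * max B₀ B₁ * κ n := fun n x => by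
    rw [← norm_iteratedFDeriv_one]
    exact itd_tm_le (k := 1) h le_rfl (by exact_mod_cast hu) hp hB' n x
  have hs : Summable fun n : ℕ => 2 * C₁ ^ 2 * max B₀ B₁ * κ n := h.summ _
  have h' := hasFDerivAt_tsum hs hd hle (tm_summable h₀ hu.continuous hp x) x
  have e : (opr b F G u) = fun y => ∑' n, tm b F G u n y := rfl
  have hs' : Summable fun n => fderiv ℝ (tm b F G u n) x :=
    Summable.of_norm_bounded hs fun n => hle n x
  rw [divergence_eq_sum, e, h'.fderiv, ← trL_apply, ContinuousLinearMap.map_tsum _ hs']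
  have h0 : ∀ n, trL (fderiv ℝ (tm b F G u n) x) = 0 := fun n => by
    rw [trL_apply, ← divergence_eq_sum]
    exact div_tm h u n x
  simp [h0]

/-- the modulus of continuity of one block -/
lemma block_mod (hF : Bl n₀ m k C F) (hC : 0 < C) (hm : ∀ n, 0 ≤ m n) (n : ℕ) (x y : V) :
    ‖iteratedFDeriv ℝ k (F n) x - iteratedFDeriv ℝ k (F n) y‖ ≤
      C * m n * (2 ^ ((n₀ + n) * k) * (2 * min 1 ((2 : ℝ) ^ (n₀ + n) * ‖x - y‖))) := by
  set s := (2 : ℝ) ^ (n₀ + n) * ‖x - y‖ with hs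
  have hs0 : 0 ≤ s := by positivity
  have hm0 := hm n
  have h1 : ‖iteratedFDeriv ℝ k (F n) x - iteratedFDeriv ℝ k (F n) y‖ ≤
      2 * (C * m n) * 2 ^ ((n₀ + n) * k) := by
    refine (norm_sub_le _ _).trans ?_
    have h2 := hF.bound n k (by omega) x
    have h3 := hF.bound n k (by omega) y
    linarith
  have h2 : ‖iteratedFDeriv ℝ k (F n) x - iteratedFDeriv ℝ k (F n) y‖ ≤
      (C * m n) * 2 ^ ((n₀ + n) * k) * s := by
    have hd : ∀ z ∈ (univ : Set V), DifferentiableAt ℝ (iteratedFDeriv ℝ k (F n)) z := fun z _ =>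
      ((hF.smooth n).differentiable_iteratedFDeriv
        (by exact_mod_cast WithTop.coe_lt_top _)).differentiableAt
    have hb : ∀ z ∈ (univ : Set V), ‖fderiv ℝ (iteratedFDeriv ℝ k (F n)) z‖ ≤
        C * m n * 2 ^ ((n₀ + n) * (k + 1)) := fun z _ => by
      rw [norm_fderiv_iteratedFDeriv]
      exact hF.bound n (k + 1) (by omega) z
    have h3 := convex_univ.norm_image_sub_le_of_norm_fderiv_le hd hb (mem_univ y) (mem_univ x)
    refine h3.trans_eq ?_
    rw [hs, mul_add, mul_one, pow_add]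
    ring
  have hA : 0 ≤ (C * m n) * 2 ^ ((n₀ + n) * k) := by positivity
  have h4 : ‖iteratedFDeriv ℝ k (F n) x - iteratedFDeriv ℝ k (F n) y‖ ≤
      2 * (C * m n) * 2 ^ ((n₀ + n) * k) * min 1 s := by
    rcases le_total 1 s with h | h
    · rw [min_eq_left h]; linarith
    · rw [min_eq_right h]
      nlinarith [mul_nonneg hA hs0]
  refine h4.trans_eq ?_
  ring

lemma itd_tm_mod (h : Dat n₀ m b κ k C F G)
    (hu : ContDiff ℝ k u) (hp : Periodic3 u) (hB : ∀ j ≤ k, ∀ x, ‖iteratedFDeriv ℝ j u x‖ ≤ B)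
    (n : ℕ) (x y : V) :
    ‖iteratedFDeriv ℝ k (tm b F G u n) x - iteratedFDeriv ℝ k (tm b F G u n) y‖ ≤
      4 * C ^ 2 * B * (κ n * min 1 ((2 : ℝ) ^ (n₀ + n) * ‖x - y‖)) := by
  have e : ip u (F n) • iteratedFDeriv ℝ k (G n) x + ip u (G n) • iteratedFDeriv ℝ k (F n) x -
      (ip u (F n) • iteratedFDeriv ℝ k (G n) y + ip u (G n) • iteratedFDeriv ℝ k (F n) y) =
      ip u (F n) • (iteratedFDeriv ℝ k (G n) x - iteratedFDeriv ℝ k (G n) y) +
      ip u (G n) • (iteratedFDeriv ℝ k (F n) x - iteratedFDeriv ℝ k (F n) y) := by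
    rw [smul_sub, smul_sub]; abel
  rw [itd_tm h, itd_tm h, ← smul_sub, e]
  refine (comb_le h hu hp hB n _ _
    (2 ^ ((n₀ + n) * k) * (2 * min 1 ((2 : ℝ) ^ (n₀ + n) * ‖x - y‖))) (by positivity)
    (block_mod h.G h.C0 h.m0 n x y) (block_mod h.F h.C0 h.m0 n x y)).trans_eq ?_
  have h7 : (1 / 2 : ℝ) ^ ((n₀ + n) * k) * 2 ^ ((n₀ + n) * k) = 1 := by
    rw [← mul_pow]; norm_num
  calc _ = 4 * C ^ 2 * B * (κ n * min 1 ((2 : ℝ) ^ (n₀ + n) * ‖x - y‖)) *
          ((1 / 2 : ℝ) ^ ((n₀ + n) * k) * 2 ^ ((n₀ + n) * k)) := by ring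
    _ = _ := by
        rw [h7]; ring

end

/-- the data for every `k` -/
lemma exists_bl {n₀ : ℕ} {F : ℕ → V → V} (hF : Blocks3 n₀ F) (k : ℕ) :
    ∃ C > 0, ∀ C' ≥ C, Bl n₀ (fun _ => 1) k C' F := by
  choose c hc0 hc using hF.bound
  obtain ⟨c₁, hc₁, hl⟩ := hF.l2
  obtain ⟨c₂, hc₂, hm⟩ := hF.mom k
  have hs0 : 0 ≤ ∑ j ∈ Finset.range (k + 2), c j := Finset.sum_nonneg fun j _ => (hc0 j).le
  refine ⟨(∑ j ∈ Finset.range (k + 2), c j) + c₁ + c₂, by positivity, fun C' hC' =>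
    ⟨hF.smooth, hF.per, hF.div, ?_, ?_, ?_⟩⟩
  · intro n j hj x
    refine (hc j n x).trans ?_
    have h1 : c j ≤ ∑ j ∈ Finset.range (k + 2), c j :=
      Finset.single_le_sum (fun i _ => (hc0 i).le) (Finset.mem_range.2 (by omega))
    have h2 : c j ≤ C' := by linarith
    rw [mul_one]
    gcongr
  · intro n
    refine (hl n).trans ?_
    have h2 : c₁ ≤ C' := by linarith
    rw [mul_one]
    gcongr
  · intro n u B hu hp hB
    have hB0 := B_nonneg hB
    refine (hm n u B hu hp hB).trans ?_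
    have h2 : c₂ ≤ C' := by linarith
    rw [mul_one]
    gcongr

/-- the sum of the moduli of the blocks -/
lemma sum_mod (n₀ : ℕ) (a : ℕ → ℝ) (ha : ∀ n, 0 ≤ a n)
    (hs : Summable fun n => a n * (1 / 2) ^ n) (r : ℝ) (hr : 0 < r) :
    (Summable fun n => a (n₀ + n) * (1 / 2) ^ (n₀ + n) * min 1 ((2 : ℝ) ^ (n₀ + n) * r)) ∧
    ∑' n, a (n₀ + n) * (1 / 2) ^ (n₀ + n) * min 1 ((2 : ℝ) ^ (n₀ + n) * r) ≤
      ∑' n, a n * min ((1 / 2) ^ n) r := by
  have e : ∀ n : ℕ, a n * (1 / 2) ^ n * min 1 ((2 : ℝ) ^ n * r) = a n * min ((1 / 2) ^ n) r := by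
    intro n
    rw [mul_assoc]
    congr 1
    rw [mul_min_of_nonneg _ _ (by positivity : (0 : ℝ) ≤ (1 / 2) ^ n), mul_one, ← mul_assoc,
      ← mul_pow]
    norm_num
  have h0 : ∀ n, 0 ≤ a n * min ((1 / 2) ^ n) r := fun n =>
    mul_nonneg (ha n) (le_min (by positivity) hr.le)
  have h1 : Summable fun n => a n * min ((1 / 2) ^ n) r :=
    Summable.of_nonneg_of_le h0 (fun n => mul_le_mul_of_nonneg_left (min_le_left _ _) (ha n)) hs
  have h2 : Summable fun n => a (n + n₀) * min ((1 / 2) ^ (n + n₀)) r :=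
    (summable_nat_add_iff (f := fun n => a n * min ((1 / 2) ^ n) r) n₀).2 h1
  simp only [e, add_comm n₀]
  refine ⟨h2, ?_⟩
  have h3 := h1.sum_add_tsum_nat_add n₀
  have h4 : 0 ≤ ∑ i ∈ Finset.range n₀, a i * min ((1 / 2) ^ i) r :=
    Finset.sum_nonneg fun i _ => h0 i
  linarith

end O2c

open O2c in
/-- **The operator is symmetric, bounded on every `C^k`, and has the modulus of continuity `om` on
every `C^k`.** -/
theorem isReg (n₀ : ℕ) (a : ℕ → ℝ) (ha : ∀ n, 0 ≤ a n)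
    (hs : Summable fun n => a n * (1 / 2) ^ n) (om : ℝ → ℝ) (c : ℝ) (hc : 0 < c)
    (hom : ∀ r, 0 < r → ∑' n, a n * min ((1 / 2) ^ n) r ≤ c * om r) (F G : ℕ → V → V)
    (hF : Blocks3 n₀ F) (hG : Blocks3 n₀ G) (β : ℝ) :
    IsReg om (opr (fun n => β * (a (n₀ + n) * 2 ^ (n₀ + n))) F G) := by
  set b : ℕ → ℝ := fun n => β * (a (n₀ + n) * 2 ^ (n₀ + n)) with hb
  have hs' : Summable fun n => a (n₀ + n) * (1 / 2) ^ (n₀ + n) := by
    have := (summable_nat_add_iff (f := fun n => a n * (1 / 2) ^ n) n₀).2 hs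
    simpa only [add_comm n₀] using this
  have ha' : ∀ n, 0 ≤ a (n₀ + n) * (1 / 2) ^ (n₀ + n) := fun n =>
    mul_nonneg (ha _) (by positivity)
  have hdat : ∀ k : ℕ, ∃ C, Dat n₀ (fun _ => 1) b
      (fun n => |β| * (a (n₀ + n) * (1 / 2) ^ (n₀ + n))) k C F G := by
    intro k
    obtain ⟨C₁, hC₁, h1⟩ := exists_bl hF k
    obtain ⟨C₂, hC₂, h2⟩ := exists_bl hG k
    refine ⟨C₁ + C₂, h1 _ (by linarith), h2 _ (by linarith), by positivity,
      fun n => zero_le_one, fun n => mul_nonneg (abs_nonneg _) (ha' n), hs'.mul_left _,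
      fun n => ?_⟩
    rw [hb]
    simp only
    rw [abs_mul, abs_of_nonneg (mul_nonneg (ha (n₀ + n)) (by positivity)), mul_assoc]
    refine le_of_eq ?_
    congr 1
    rw [one_pow, one_mul, mul_assoc, ← mul_pow]
    norm_num
  obtain ⟨C, h⟩ := hdat 0
  obtain ⟨C₁, h₁⟩ := hdat 1
  refine ⟨fun u _ _ => opr_per h u, fun u w hu hp hw hpw => opr_add h hu hp hw hpw,
    fun a u _ _ => O2.opr_smul _ a u, ?_, fun u hu hp x => opr_div h h₁ hu hp x, ?_, ?_⟩
  · intro u w hu hp hw hpw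
    rw [O2.ip_comm u, ip_opr h hu hp hw hpw, ip_opr h hw hpw hu hp]
    exact tsum_congr fun n => by ring
  · have hK : 0 ≤ ∑' n, 2 * C ^ 2 * (|β| * (a (n₀ + n) * (1 / 2) ^ (n₀ + n))) :=
      tsum_nonneg fun n => mul_nonneg (by positivity) (h.κ0 n)
    refine ⟨(∑' n, 2 * C ^ 2 * (|β| * (a (n₀ + n) * (1 / 2) ^ (n₀ + n)))) + 1, by positivity,
      fun u hu hp => ?_⟩
    refine (opr_l2 h hu hp).trans ?_
    refine mul_le_mul_of_nonneg_right ?_ (integral_nonneg fun x => sq3_nonneg _)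
    exact pow_le_pow_left₀ hK (by linarith) 2
  · intro k
    obtain ⟨C, h⟩ := hdat k
    set S := ∑' n, a (n₀ + n) * (1 / 2) ^ (n₀ + n) with hS
    have hS0 : 0 ≤ S := tsum_nonneg ha'
    refine ⟨2 * C ^ 2 * |β| * S + 4 * C ^ 2 * |β| * c + 1, by positivity,
      fun u B hu hp hB => ?_⟩
    have hB0 := B_nonneg hB
    obtain ⟨h1, h2⟩ := contDiff_opr h hu hp hB
    have h3 := h2 k le_rfl
    have hs1 : Summable fun n : ℕ => 2 * C ^ 2 * B * (|β| * (a (n₀ + n) * (1 / 2) ^ (n₀ + n))) :=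
      h.summ _
    refine ⟨h1, fun x => ?_, fun x y hxy => ?_⟩
    · rw [h3]
      refine (tsum_of_norm_bounded hs1.hasSum (fun n =>
        itd_tm_le h le_rfl hu hp hB n x)).trans ?_
      rw [tsum_mul_left, tsum_mul_left, ← hS]
      have h5 : 0 ≤ (4 * C ^ 2 * |β| * c + 1) * B := by positivity
      linarith
    · have hr : 0 < ‖x - y‖ := norm_pos_iff.2 (sub_ne_zero.2 hxy)
      rw [h3]
      have hsx : ∀ x, Summable fun n => iteratedFDeriv ℝ k (tm b F G u n) x := fun x =>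
        Summable.of_norm_bounded hs1 fun n => itd_tm_le h le_rfl hu hp hB n x
      show ‖(∑' n, iteratedFDeriv ℝ k (tm b F G u n) x) -
        ∑' n, iteratedFDeriv ℝ k (tm b F G u n) y‖ ≤ _
      rw [← (hsx x).tsum_sub (hsx y)]
      obtain ⟨hm1, hm2⟩ := sum_mod n₀ a ha hs ‖x - y‖ hr
      have hom' := hom _ hr
      have hm0 : 0 ≤ ∑' n, a n * min ((1 / 2) ^ n) ‖x - y‖ :=
        tsum_nonneg fun n => mul_nonneg (ha n) (le_min (by positivity) hr.le)
      have hom0 : 0 ≤ om ‖x - y‖ := by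
        have : 0 ≤ c * om ‖x - y‖ := hm0.trans hom'
        exact nonneg_of_mul_nonneg_right this hc
      have e : (fun n : ℕ => 4 * C ^ 2 * B * ((|β| * (a (n₀ + n) * (1 / 2) ^ (n₀ + n))) *
          min 1 ((2 : ℝ) ^ (n₀ + n) * ‖x - y‖))) =
          fun n => (4 * C ^ 2 * B * |β|) * (a (n₀ + n) * (1 / 2) ^ (n₀ + n) *
            min 1 ((2 : ℝ) ^ (n₀ + n) * ‖x - y‖)) := by
        funext n; ring
      have hs2 : Summable fun n : ℕ => 4 * C ^ 2 * B *
          ((|β| * (a (n₀ + n) * (1 / 2) ^ (n₀ + n))) *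
            min 1 ((2 : ℝ) ^ (n₀ + n) * ‖x - y‖)) := by
        rw [e]
        exact hm1.mul_left _
      refine (tsum_of_norm_bounded hs2.hasSum (fun n => itd_tm_mod h hu hp hB n x y)).trans ?_
      rw [e, tsum_mul_left]
      have h8 : 0 ≤ 4 * C ^ 2 * B * |β| := by positivity
      have h9 := mul_le_mul_of_nonneg_left (hm2.trans hom') h8
      have h10 : 0 ≤ (2 * C ^ 2 * |β| * S + 1) * B * om ‖x - y‖ := by positivity
      linarith

end Pool.Agent.Zk27.MB
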